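import Pool.Agent.R302.ArensB

/-!
# MP_67b4ec_an, Q2: the radical of the second dual of `l¹(ℤ)` does not have square zero

For every discrete group `G` with infinite centre (in particular for every infinite abelian group
and for the group of integers) the Jacobson radical of the second dual of `l¹(G)`, with the first
Arens product, contains nilpotent elements of every index.
-/

namespace Pool.Agent.Results.MP_67b4ec_an.RadNotNilpotent

open Pool.Agent.R302.Arens Pool.Agent.R302.L1Arens

universe u

lemma center_int : Infinite (Subgroup.center (Multiplicative ℤ)) := by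
  have h : Function.Injective
      (fun x : Multiplicative ℤ => (⟨x, Subgroup.mem_center_iff.mpr fun y => mul_comm y x⟩ :
        Subgroup.center (Multiplicative ℤ))) := fun x y hxy => congrArg Subtype.val hxy
  exact Infinite.of_injective _ h

theorem _root_.Pool.Agent.Results.MP_67b4ec_an.RadNotNilpotent.result :
    (∀ (G : Type u) [Group G], Infinite (Subgroup.center G) → ∀ n : ℕ,
      ∃ Φ : Bidual (L1 G), Φ ∈ Ideal.jacobson (⊥ : Ideal (Bidual (L1 G))) ∧
        Φ ^ n ≠ 0 ∧ Φ ^ (n + 1) = 0) ∧
    (∃ Φ Ψ : Bidual (L1 (Multiplicative ℤ)),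
      Φ ∈ Ideal.jacobson (⊥ : Ideal (Bidual (L1 (Multiplicative ℤ)))) ∧
      Ψ ∈ Ideal.jacobson (⊥ : Ideal (Bidual (L1 (Multiplicative ℤ)))) ∧
      arens Φ Ψ ≠ 0) := by
  refine ⟨fun G _ h n => ?_, ?_⟩
  · haveI := h
    exact main_group G n
  · haveI := center_int
    obtain ⟨Φ, h1, h2, -⟩ := main_group (Multiplicative ℤ) 2
    exact ⟨Φ, Φ, h1, h1, fun h => h2 (by rw [pow_two]; exact h)⟩

end Pool.Agent.Results.MP_67b4ec_an.RadNotNilpotent
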